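import Pool.Agent.Helper720.LevelFour
import Pool.Agent.Helper720.LevelExamples

set_option autoImplicit false

open MvPolynomial

namespace Pool.Agent.Results.MP_a773c0_ag.DegreeFormula

open Pool.Agent.Helper720.Level

/-- The least socle degree of a monomial level algebra of type `t` in `n` variables that fails
the weak Lefschetz property, for `3 ≤ n`, `2 ≤ t` and `(n, t) ≠ (3, 2)`. -/
noncomputable def leastSocleDegree (n t : ℕ) : ℕ :=
  if t = 2 then 6
  else if t = 3 then 4
  else if n = 3 ∧ t = 4 then 5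
  else sInf {e : ℕ | t + 2 * (n - 1) ≤ (n + e - 1).choose e}

lemma choose_step {n j : ℕ} (hn : 3 ≤ n) (h : 2 * (n - 1) + j + 2 ≤ (n + j - 1).choose j) :
    2 * (n - 1) + (j + 1) + 2 ≤ (n + (j + 1) - 1).choose (j + 1) := by
  have h1 : n + (j + 1) - 1 = (n + j - 1) + 1 := by omega
  rw [h1, Nat.choose_succ_succ]
  have h2 : 0 < (n + j - 1).choose (j + 1) := Nat.choose_pos (by omega)
  simp only [Nat.succ_eq_add_one]
  omega

lemma choose_bound {n j : ℕ} (hn : 3 ≤ n) (hj : 2 ≤ j) (hnj : n = 3 → 3 ≤ j) :
    2 * (n - 1) + j + 2 ≤ (n + j - 1).choose j := by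
  by_cases h3 : n = 3
  · subst h3
    have hj' := hnj rfl
    induction j, hj' using Nat.le_induction with
    | base => decide
    | succ j hj' ih => exact choose_step (by omega) (ih (by omega) (fun _ => hj'))
  · have h4 : 4 ≤ n := by omega
    clear hnj h3
    induction j, hj using Nat.le_induction with
    | base =>
      have h1 : n + 2 - 1 = n + 1 := by omega
      rw [h1, Nat.choose_two_right, Nat.le_div_iff_mul_le (by norm_num)]
      obtain ⟨m, rfl⟩ := Nat.exists_eq_add_of_le h4
      have h2 : 4 + m - 1 = 3 + m := by omega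
      have h3 : 4 + m + 1 - 1 = 4 + m := by omega
      rw [h2, h3]
      nlinarith [Nat.zero_le m, Nat.zero_le (m * m)]
    | succ j hj ih => exact choose_step hn ih

lemma set_nonempty {n : ℕ} (hn : 3 ≤ n) (t : ℕ) :
    {e : ℕ | t + 2 * (n - 1) ≤ (n + e - 1).choose e}.Nonempty := by
  refine ⟨t + 3, ?_⟩
  have h := choose_bound (j := t + 3) hn (by omega) (fun _ => by omega)
  simp only [Set.mem_ofPred_eq]
  omega

/-- Below the least socle degree, every map has maximal rank. -/
lemma lower (K : Type*) [Field K] [CharZero K] {n t e : ℕ} (hn : 3 ≤ n) (ht : 2 ≤ t)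
    (hnt : ¬ (n = 3 ∧ t = 2)) (he : e < leastSocleDegree n t) {W : Finset (Fin n →₀ ℕ)}
    (hcard : W.card = t) (hW : ∀ w ∈ W, w.degree = e) (i : ℕ) :
    Function.Injective (T1 K W i) ∨ Function.Surjective (T1 K W i) := by
  classical
  unfold leastSocleDegree at he
  split_ifs at he with h2 h3 h4
  · subst h2
    obtain ⟨a, b, hab, rfl⟩ := Finset.card_eq_two.1 hcard
    exact two_wlp (by omega) (hW a (by simp)) (hW b (by simp)) hab i
  · subst h3
    exact three_wlp (by omega) hW hcard i
  · obtain ⟨rfl, rfl⟩ := h4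
    exact four_wlp (by omega) hW hcard i
  · rcases Nat.lt_or_ge i e with hlt | hge
    · left
      apply inj_of_large hW _ hlt
      rw [hcard]
      by_contra hcon
      exact Nat.notMem_of_lt_sInf he (by
        simp only [Set.mem_ofPred_eq]
        omega)
    · exact Or.inr (surj_of_ge hW hge)

/-- In the least socle degree, there is a failure. -/
lemma upper (K : Type*) [Field K] [CharZero K] {n t : ℕ} (hn : 3 ≤ n) (ht : 2 ≤ t)
    (hnt : ¬ (n = 3 ∧ t = 2)) :
    ∃ W : Finset (Fin n →₀ ℕ), W.card = t ∧ (∀ w ∈ W, w.degree = leastSocleDegree n t) ∧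
      ∃ i, ¬ Function.Injective (T1 K W i) ∧ ¬ Function.Surjective (T1 K W i) := by
  classical
  unfold leastSocleDegree
  split_ifs with h2 h3 h4
  · subst h2
    obtain ⟨W, h1, h2, h3⟩ := example_two K (n := n) (by omega)
    exact ⟨W, h1, h2, 3, h3⟩
  · subst h3
    obtain ⟨W, h1, h2, h3⟩ := example_three K (n := n) hn
    exact ⟨W, h1, h2, 2, h3⟩
  · obtain ⟨rfl, rfl⟩ := h4
    obtain ⟨W, h1, h2, h3⟩ := example_four K (n := 3) le_rfl
    exact ⟨W, h1, h2, 3, h3⟩
  · set e := sInf {e : ℕ | t + 2 * (n - 1) ≤ (n + e - 1).choose e} with he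
    have hmem : t + 2 * (n - 1) ≤ (n + e - 1).choose e := Nat.sInf_mem (set_nonempty hn t)
    have hmin : ∀ e', e' < e → (n + e' - 1).choose e' < t + 2 * (n - 1) := by
      intro e' he'
      by_contra hcon
      exact Nat.notMem_of_lt_sInf he' (by
        simp only [Set.mem_ofPred_eq]
        omega)
    have h0 : e ≠ 0 := by
      intro h
      rw [h, Nat.choose_zero_right] at hmem
      omega
    have h1 : e ≠ 1 := by
      intro h
      rw [h, Nat.choose_one_right] at hmem
      omega
    by_cases h5 : e = 2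
    · rw [h5] at hmem ⊢
      have hn4 : 4 ≤ n := by
        by_contra hcon
        have hn3 : n = 3 := by omega
        subst hn3
        have h6 : (3 + 2 - 1).choose 2 = 6 := by decide
        rw [h6] at hmem
        omega
      obtain ⟨W, h1, h2, h3⟩ := exists_fail_two (K := K) hn4 t (by omega) hmem
      exact ⟨W, h1, h2, 1, h3⟩
    · obtain ⟨q, hq⟩ : ∃ q, e = q + 3 := ⟨e - 3, by omega⟩
      have h7 : q + 5 ≤ t := by
        by_cases h8 : n = 3 ∧ q = 0
        · obtain ⟨rfl, rfl⟩ := h8
          omega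
        · have h9 := hmin (q + 2) (by omega)
          have h10 := choose_bound (j := q + 2) hn (by omega) (fun h => by omega)
          omega
      rw [hq] at hmem ⊢
      obtain ⟨W, h1, h2, h3⟩ := exists_fail_three (K := K) hn q t h7 hmem
      exact ⟨W, h1, h2, q + 2, h3⟩

/-- For all `n ≥ 3`, `t ≥ 2` with `(n, t) ≠ (3, 2)`, the least degree `d(n, t)` in which the
last syzygy module of a monomial level algebra of type `t` in `n` variables failing the weak
Lefschetz property is generated equals `n + leastSocleDegree n t`. -/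
theorem result (K : Type*) [Field K] [CharZero K] (n t : ℕ) (hn : 3 ≤ n) (ht : 2 ≤ t)
    (hnt : ¬ (n = 3 ∧ t = 2)) :
    IsLeast {d : ℕ | ∃ I : Ideal (MvPolynomial (Fin n) K), IsMonomialLevel I t d ∧ ¬ HasWLP I}
      (n + leastSocleDegree n t) := by
  constructor
  · obtain ⟨W, hcard, hW, i, h1, h2⟩ := upper K hn ht hnt
    obtain ⟨I, hI⟩ := exists_desc K W
    refine ⟨I, ?_, ?_⟩
    · have h3 := hI.level hW
      rw [hcard, add_comm] at h3
      exact h3
    · rw [hI.hasWLP_iff]
      intro h
      rcases h i with h | h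
      · exact h1 h
      · exact h2 h
  · rintro d ⟨I, hI, hfail⟩
    obtain ⟨e, W, hed, hcard, hW, hD⟩ := hI.exists_desc
    by_contra hcon
    apply hfail
    rw [hD.hasWLP_iff]
    exact fun i => lower K hn ht hnt (by omega) hcard hW i

end Pool.Agent.Results.MP_a773c0_ag.DegreeFormula
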